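import Mathlib
import Pool.Agent.H510R3.PQ2

/-!
# No Diophantine quadruples for two primes

The question is answered in the affirmative, without its two hypotheses on the pair of primes: for
all distinct primes `p`, `q` there is no `{p, q}`-Diophantine quadruple.
-/

set_option autoImplicit false

namespace Pool.Agent.Results.MP_7eb8f3_nt.NoQuadruple

/-- The tuple `a` is `S`-Diophantine: its entries are distinct positive integers and every prime
divisor of every `a i * a j + 1`, `i ≠ j`, is in `S`. -/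
def IsDiophantine (S : Set ℕ) {m : ℕ} (a : Fin m → ℕ) : Prop :=
  (∀ i j, i ≠ j → a i ≠ a j) ∧ (∀ i, 0 < a i) ∧
    ∀ i j, i ≠ j → ∀ l : ℕ, l.Prime → l ∣ a i * a j + 1 → l ∈ S

/-- `(p, q)` is a Wieferich pair. -/
def Wieferich (p q : ℕ) : Prop := p ^ 2 ∣ q ^ (p - 1) - 1 ∧ q ^ 2 ∣ p ^ (q - 1) - 1

theorem two_primes {p q n : ℕ} (hpq : p ≠ q) (hn : n ≠ 0)
    (h : ∀ l : ℕ, l.Prime → l ∣ n → l ∈ ({p, q} : Set ℕ)) : ∃ i j : ℕ, n = p ^ i * q ^ j := by
  refine ⟨n.factorization p, n.factorization q, ?_⟩
  have h1 : n.factorization.support ⊆ ({p, q} : Finset ℕ) := by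
    intro l hl
    rw [Nat.support_factorization, Nat.mem_primeFactors] at hl
    have := h l hl.1 hl.2.1
    simpa using this
  conv_lhs => rw [← Nat.prod_factorization_pow_eq_self hn]
  rw [Finsupp.prod_of_support_subset _ h1 _ (fun i _ => pow_zero i), Finset.prod_pair hpq]

/-- (1) For all distinct primes `p`, `q` there is no `{p, q}`-Diophantine quadruple.
(2) In particular Q1 holds: there is none if `p < q` are primes such that `(p, q)` is not a
Wieferich pair and `p`, `q` are not both `1` modulo `4`. -/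
theorem result :
    (∀ p q : ℕ, p.Prime → q.Prime → p ≠ q → ¬ ∃ a : Fin 4 → ℕ, IsDiophantine {p, q} a) ∧
    ∀ p q : ℕ, p.Prime → q.Prime → p < q → ¬ Wieferich p q → ¬ (p % 4 = 1 ∧ q % 4 = 1) →
      ¬ ∃ a : Fin 4 → ℕ, IsDiophantine {p, q} a := by
  have key : ∀ p q : ℕ, p.Prime → q.Prime → p ≠ q →
      ¬ ∃ a : Fin 4 → ℕ, IsDiophantine {p, q} a := by
    rintro p q hp hq hpq ⟨a, h1, h2, h3⟩
    have hinj : Function.Injective a := fun i j hij => by
      by_contra hne
      exact h1 i j hne hij
    have hcard : (Finset.univ.image a).card = 4 := by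
      rw [Finset.card_image_of_injective _ hinj]
      simp
    let e := (Finset.univ.image a).orderEmbOfFin hcard
    have he : ∀ i, ∃ k, a k = e i := fun i => by
      obtain ⟨k, -, hk⟩ := Finset.mem_image.1
        (Finset.orderEmbOfFin_mem (Finset.univ.image a) hcard i)
      exact ⟨k, hk⟩
    choose s hs using he
    have hlt : ∀ i j : Fin 4, i < j → e i < e j := fun i j hij => e.strictMono hij
    have hpos : ∀ i, 0 < e i := fun i => by
      rw [← hs i]
      exact h2 _
    have hf : ∀ i j : Fin 4, i < j → ∃ x y : ℕ, e i * e j + 1 = p ^ x * q ^ y := by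
      intro i j hij
      refine two_primes hpq (by omega) ?_
      intro l hl hd
      rw [← hs i, ← hs j] at hd
      refine h3 _ _ ?_ l hl hd
      intro hst
      have h4 := hlt i j hij
      rw [← hs i, ← hs j, hst] at h4
      exact lt_irrefl _ h4
    exact Pool.Agent.H510R3.PQ.no_quadruple hp hq hpq (hpos 0) (hlt 0 1 (by decide))
      (hlt 1 2 (by decide)) (hlt 2 3 (by decide)) (hf 0 1 (by decide)) (hf 0 2 (by decide))
      (hf 0 3 (by decide)) (hf 1 2 (by decide)) (hf 1 3 (by decide)) (hf 2 3 (by decide))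
  exact ⟨key, fun p q hp hq hlt _ _ => key p q hp hq hlt.ne⟩

end Pool.Agent.Results.MP_7eb8f3_nt.NoQuadruple
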